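import Mathlib

/-! Part B of the disproof of MP_0e6637_co (task of helper18): an abstract strictly convex,
`T`-invariant norm with prescribed unit vectors. -/

set_option autoImplicit false

namespace Pool.Agent.H777R4.PartB

open Set

/-- A gauge function: convex, nondecreasing, 1-Lipschitz, positive on `(0, ∞)`. -/
lemma exists_Phi (c : ℕ → ℝ) (hc0 : ∀ n, 0 < c n) (hc1 : ∀ n, c n ≤ 1) :
    ∃ Φ : ℝ → ℝ, Φ 0 = 0 ∧ (∀ a b, a ≤ b → Φ a ≤ Φ b) ∧ (∀ a b, a ≤ b → Φ b ≤ Φ a + (b - a)) ∧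
      (∀ a b t : ℝ, 0 ≤ t → t ≤ 1 → Φ (t * a + (1 - t) * b) ≤ t * Φ a + (1 - t) * Φ b) ∧
      (∀ s, 0 < s → 0 < Φ s) ∧ (∀ s, c 0 * (s - 1) ≤ Φ s) ∧
      (∀ s B, (∀ n, c n * max 0 (s - 1 / ((n : ℝ) + 1)) ≤ B) → Φ s ≤ B) := by
  have hb : ∀ s : ℝ, BddAbove (range fun n : ℕ => c n * max 0 (s - 1 / ((n : ℝ) + 1))) := by
    intro s
    refine ⟨max 0 s, ?_⟩
    rintro _ ⟨n, rfl⟩
    have h1 : max 0 (s - 1 / ((n : ℝ) + 1)) ≤ max 0 s := by
      apply max_le_max le_rfl
      have : (0 : ℝ) ≤ 1 / ((n : ℝ) + 1) := by positivity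
      linarith
    have h2 : (0 : ℝ) ≤ max 0 (s - 1 / ((n : ℝ) + 1)) := le_max_left _ _
    calc c n * max 0 (s - 1 / ((n : ℝ) + 1)) ≤ 1 * max 0 (s - 1 / ((n : ℝ) + 1)) :=
          mul_le_mul_of_nonneg_right (hc1 n) h2
      _ ≤ max 0 s := by rw [one_mul]; exact h1
  have hle : ∀ (s : ℝ) (n : ℕ), c n * max 0 (s - 1 / ((n : ℝ) + 1)) ≤
      ⨆ n : ℕ, c n * max 0 (s - 1 / ((n : ℝ) + 1)) := fun s n => le_ciSup (hb s) n
  refine ⟨fun s => ⨆ n : ℕ, c n * max 0 (s - 1 / ((n : ℝ) + 1)), ?_, ?_, ?_, ?_, ?_, ?_, ?_⟩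
  · have : ∀ n : ℕ, c n * max 0 ((0 : ℝ) - 1 / ((n : ℝ) + 1)) = 0 := by
      intro n
      have h0 : (0 : ℝ) - 1 / ((n : ℝ) + 1) ≤ 0 := by
        have : (0 : ℝ) ≤ 1 / ((n : ℝ) + 1) := by positivity
        linarith
      rw [max_eq_left h0, mul_zero]
    simp only [this]
    exact ciSup_const
  · intro a b hab
    apply ciSup_mono (hb b)
    intro n
    apply mul_le_mul_of_nonneg_left _ (hc0 n).le
    exact max_le_max le_rfl (by linarith)
  · intro a b hab
    apply ciSup_le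
    intro n
    have h := hle a n
    have h3 : max 0 (b - 1 / ((n : ℝ) + 1)) ≤ max 0 (a - 1 / ((n : ℝ) + 1)) + (b - a) := by
      apply max_le
      · have := le_max_left (0 : ℝ) (a - 1 / ((n : ℝ) + 1)); linarith
      · have := le_max_right (0 : ℝ) (a - 1 / ((n : ℝ) + 1)); linarith
    have h4 : c n * max 0 (b - 1 / ((n : ℝ) + 1)) ≤
        c n * max 0 (a - 1 / ((n : ℝ) + 1)) + c n * (b - a) := by
      rw [← mul_add]; exact mul_le_mul_of_nonneg_left h3 (hc0 n).le
    have h5 : c n * (b - a) ≤ b - a := by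
      nlinarith [hc1 n, sub_nonneg.mpr hab]
    linarith
  · intro a b t ht0 ht1
    apply ciSup_le
    intro n
    have ha := hle a n
    have hb' := hle b n
    have h3 : max 0 (t * a + (1 - t) * b - 1 / ((n : ℝ) + 1)) ≤
        t * max 0 (a - 1 / ((n : ℝ) + 1)) + (1 - t) * max 0 (b - 1 / ((n : ℝ) + 1)) := by
      have m1 := le_max_left (0 : ℝ) (a - 1 / ((n : ℝ) + 1))
      have m2 := le_max_right (0 : ℝ) (a - 1 / ((n : ℝ) + 1))
      have m3 := le_max_left (0 : ℝ) (b - 1 / ((n : ℝ) + 1))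
      have m4 := le_max_right (0 : ℝ) (b - 1 / ((n : ℝ) + 1))
      apply max_le
      · have := mul_nonneg ht0 m1
        have := mul_nonneg (sub_nonneg.mpr ht1) m3
        linarith
      · have e1 := mul_le_mul_of_nonneg_left m2 ht0
        have e2 := mul_le_mul_of_nonneg_left m4 (sub_nonneg.mpr ht1)
        nlinarith
    calc c n * max 0 (t * a + (1 - t) * b - 1 / ((n : ℝ) + 1))
        ≤ c n * (t * max 0 (a - 1 / ((n : ℝ) + 1)) + (1 - t) * max 0 (b - 1 / ((n : ℝ) + 1))) :=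
          mul_le_mul_of_nonneg_left h3 (hc0 n).le
      _ = t * (c n * max 0 (a - 1 / ((n : ℝ) + 1))) +
            (1 - t) * (c n * max 0 (b - 1 / ((n : ℝ) + 1))) := by ring
      _ ≤ _ := add_le_add (mul_le_mul_of_nonneg_left ha ht0)
            (mul_le_mul_of_nonneg_left hb' (sub_nonneg.mpr ht1))
  · intro s hs
    obtain ⟨n, hn⟩ := exists_nat_one_div_lt hs
    have h := hle s n
    have : 0 < c n * max 0 (s - 1 / ((n : ℝ) + 1)) := by
      apply mul_pos (hc0 n)
      exact lt_max_of_lt_right (by linarith)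
    linarith
  · intro s
    have h := hle s 0
    have h1 : s - 1 ≤ max 0 (s - 1 / (((0 : ℕ) : ℝ) + 1)) := by
      simp
    have := mul_le_mul_of_nonneg_left h1 (hc0 0).le
    linarith
  · intro s B hB
    exact ciSup_le hB

/-- superadditivity -/
lemma super_of_convex {Φ : ℝ → ℝ} (h0 : Φ 0 = 0)
    (hconv : ∀ a b t : ℝ, 0 ≤ t → t ≤ 1 → Φ (t * a + (1 - t) * b) ≤ t * Φ a + (1 - t) * Φ b)
    {a b : ℝ} (ha : 0 ≤ a) (hb : 0 ≤ b) : Φ a + Φ b ≤ Φ (a + b) := by
  rcases (add_nonneg ha hb).eq_or_lt with h | h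
  · have ha0 : a = 0 := by linarith
    have hb0 : b = 0 := by linarith
    subst ha0; subst hb0
    simp [h0]
  · have h1 := hconv (a + b) 0 (a / (a + b)) (by positivity) (by rw [div_le_one h]; linarith)
    have h2 := hconv (a + b) 0 (b / (a + b)) (by positivity) (by rw [div_le_one h]; linarith)
    have e1 : a / (a + b) * (a + b) + (1 - a / (a + b)) * 0 = a := by
      rw [mul_zero, add_zero, div_mul_cancel₀ _ h.ne']
    have e2 : b / (a + b) * (a + b) + (1 - b / (a + b)) * 0 = b := by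
      rw [mul_zero, add_zero, div_mul_cancel₀ _ h.ne']
    rw [e1, h0] at h1
    rw [e2, h0] at h2
    have e3 : a / (a + b) + b / (a + b) = 1 := by
      rw [← add_div, div_self h.ne']
    have : a / (a + b) * Φ (a + b) + b / (a + b) * Φ (a + b) = Φ (a + b) := by
      rw [← add_mul, e3, one_mul]
    linarith

theorem exists_norm {V : Type} [NormedAddCommGroup V] [InnerProductSpace ℝ V] [FiniteDimensional ℝ V]
    {I : Type} [Nonempty I] (z p : I → V) (R : ℝ) (hz : ∀ i, ‖z i‖ ≤ R) (hp : ∀ i, ‖p i‖ ≤ R)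
    (h1 : ∀ i, inner ℝ (p i) (z i) = 1)
    (hUE : ∀ e > 0, ∃ δ > 0, ∀ i j, e ≤ ‖z i - z j‖ → inner ℝ (p i) (z j) ≤ 1 - δ)
    (hneg : ∀ i, ∃ j, z j = -z i ∧ p j = -p i) (T : V ≃ₗᵢ[ℝ] V)
    (hT : ∀ i, ∃ j, z j = T (z i) ∧ p j = T (p i))
    (hT5 : ∀ x, T (T (T (T (T x)))) = x) :
    ∃ N : V → ℝ, (∀ x y, N (x + y) ≤ N x + N y) ∧ (∀ (a : ℝ) x, N (a • x) = |a| * N x) ∧
      (∀ x, N x = 0 → x = 0) ∧
      (∀ x y, x ≠ y → N x = 1 → N y = 1 → N ((1/2 : ℝ) • (x + y)) < 1) ∧
      (∀ i, N (z i) = 1) ∧ (∀ x, N (T x) = N x) := by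
  classical
  obtain ⟨i0⟩ := ‹Nonempty I›
  have hR : 0 ≤ R := (norm_nonneg _).trans (hz i0)
  -- constants
  have hδ : ∀ n : ℕ, ∃ δ > 0, ∀ i j, 1 / ((n : ℝ) + 1) ≤ ‖z i - z j‖ ^ 2 →
      inner ℝ (p i) (z j) ≤ 1 - δ := by
    intro n
    have hpos : (0 : ℝ) < 1 / ((n : ℝ) + 1) := by positivity
    obtain ⟨δ, hδ, h⟩ := hUE (Real.sqrt (1 / ((n : ℝ) + 1))) (Real.sqrt_pos.mpr hpos)
    refine ⟨δ, hδ, fun i j hij => h i j ?_⟩
    exact Real.sqrt_le_iff.mpr ⟨norm_nonneg _, hij⟩
  choose δ hδ0 hδ1 using hδ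
  set c : ℕ → ℝ := fun n => min (min 1 (δ n / (4 * R ^ 2 + 1))) (1 / (2 * (R ^ 2 + 1))) with hcdef
  have hc0 : ∀ n, 0 < c n := by
    intro n
    have := hδ0 n
    simp only [hcdef]
    apply lt_min (lt_min one_pos (by positivity)) (by positivity)
  have hc1 : ∀ n, c n ≤ 1 := fun n => (min_le_left _ _).trans (min_le_left _ _)
  have hc2 : ∀ n, c n * (4 * R ^ 2 + 1) ≤ δ n := by
    intro n
    have h : c n ≤ δ n / (4 * R ^ 2 + 1) := (min_le_left _ _).trans (min_le_right _ _)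
    rwa [le_div_iff₀ (by positivity)] at h
  have hc3 : ∀ n, c n * (2 * (R ^ 2 + 1)) ≤ 1 := by
    intro n
    have h : c n ≤ 1 / (2 * (R ^ 2 + 1)) := min_le_right _ _
    rwa [le_div_iff₀ (by positivity)] at h
  obtain ⟨Φ, Φ0, Φmono, Φlip, Φconv, Φpos, Φlow, Φle⟩ := exists_Phi c hc0 hc1
  have Φnn : ∀ s, 0 ≤ s → 0 ≤ Φ s := fun s hs => by rw [← Φ0]; exact Φmono _ _ hs
  -- inner products at most one
  have hple : ∀ i j, inner ℝ (p i) (z j) ≤ 1 := by
    intro i j
    by_cases hij : z i = z j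
    · rw [← hij, h1]
    · have : 0 < ‖z i - z j‖ := norm_pos_iff.mpr (sub_ne_zero.mpr hij)
      obtain ⟨d, hd, h⟩ := hUE _ this
      have := h i j le_rfl
      linarith
  have hzz : ∀ i j, ‖z i - z j‖ ^ 2 ≤ 4 * R ^ 2 := by
    intro i j
    have h : ‖z i - z j‖ ≤ 2 * R := by
      have := norm_sub_le (z i) (z j)
      have := hz i; have := hz j
      linarith
    have := norm_nonneg (z i - z j)
    nlinarith
  have hmain : ∀ i j, Φ (‖z j - z i‖ ^ 2) ≤ 1 - inner ℝ (p i) (z j) := by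
    intro i j
    apply Φle
    intro n
    by_cases hn : 1 / ((n : ℝ) + 1) ≤ ‖z i - z j‖ ^ 2
    · have h := hδ1 n i j hn
      have h2 : max 0 (‖z j - z i‖ ^ 2 - 1 / ((n : ℝ) + 1)) ≤ 4 * R ^ 2 + 1 := by
        have h3 := hzz j i
        apply max_le
        · positivity
        · have : (0 : ℝ) ≤ 1 / ((n : ℝ) + 1) := by positivity
          linarith
      have h4 := mul_le_mul_of_nonneg_left h2 (hc0 n).le
      have h5 := hc2 n
      linarith
    · push_neg at hn
      have h2 : ‖z j - z i‖ ^ 2 - 1 / ((n : ℝ) + 1) ≤ 0 := by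
        rw [norm_sub_rev]; linarith
      rw [max_eq_left h2, mul_zero]
      linarith [hple i j]
  have hhalf : ∀ i, Φ (‖z i‖ ^ 2) ≤ 1 / 2 := by
    intro i
    apply Φle
    intro n
    have h2 : max 0 (‖z i‖ ^ 2 - 1 / ((n : ℝ) + 1)) ≤ R ^ 2 + 1 := by
      apply max_le
      · positivity
      · have : (0 : ℝ) ≤ 1 / ((n : ℝ) + 1) := by positivity
        have := hz i
        have := norm_nonneg (z i)
        nlinarith
    have h4 := mul_le_mul_of_nonneg_left h2 (hc0 n).le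
    have h5 := hc3 n
    linarith
  -- the body
  set L : Set V := {x | ∀ i, inner ℝ (p i) x + Φ (‖x - z i‖ ^ 2) ≤ 1} with hL
  have hpin : ∀ i (x : V), inner ℝ (p i) x ≤ R * ‖x‖ := by
    intro i x
    exact (real_inner_le_norm _ _).trans (mul_le_mul_of_nonneg_right (hp i) (norm_nonneg _))
  have hsq : ∀ (a b : V) (t : ℝ), 0 ≤ t → t ≤ 1 →
      ‖t • a + (1 - t) • b‖ ^ 2 = t * ‖a‖ ^ 2 + (1 - t) * ‖b‖ ^ 2 - t * (1 - t) * ‖a - b‖ ^ 2 := by
    intro a b t _ _
    rw [← real_inner_self_eq_norm_sq, ← real_inner_self_eq_norm_sq, ← real_inner_self_eq_norm_sq,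
      ← real_inner_self_eq_norm_sq]
    simp only [inner_add_left, inner_add_right, inner_sub_left, inner_sub_right,
      real_inner_smul_left, real_inner_smul_right]
    rw [real_inner_comm a b]
    ring
  have hconvL : Convex ℝ L := by
    intro x hx y hy a b ha hb hab i
    obtain rfl : b = 1 - a := by linarith
    have ha1 : a ≤ 1 := by linarith
    have e1 : a • x + (1 - a) • y - z i = a • (x - z i) + (1 - a) • (y - z i) := by
      module
    have e2 := hsq (x - z i) (y - z i) a ha ha1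
    have e3 : ‖a • x + (1 - a) • y - z i‖ ^ 2 ≤ a * ‖x - z i‖ ^ 2 + (1 - a) * ‖y - z i‖ ^ 2 := by
      rw [e1, e2]
      have : 0 ≤ a * (1 - a) * ‖x - z i - (y - z i)‖ ^ 2 := by positivity
      linarith
    have e4 := (Φmono _ _ e3).trans (Φconv _ _ a ha ha1)
    have e5 : inner ℝ (p i) (a • x + (1 - a) • y) =
        a * inner ℝ (p i) x + (1 - a) * inner ℝ (p i) y := by
      rw [inner_add_right, real_inner_smul_right, real_inner_smul_right]
    have e6 := mul_le_mul_of_nonneg_left (hx i) ha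
    have e7 := mul_le_mul_of_nonneg_left (hy i) hb
    rw [e5]
    nlinarith
  -- perturbation
  have hpert : ∀ (m u : V) (r : ℝ), ‖u - m‖ ≤ r → ∀ i,
      inner ℝ (p i) u + Φ (‖u - z i‖ ^ 2) ≤
        inner ℝ (p i) m + Φ (‖m - z i‖ ^ 2) + r * (r + 2 * ‖m‖ + 3 * R) := by
    intro m u r hur i
    have hr : 0 ≤ r := (norm_nonneg _).trans hur
    have e1 : inner ℝ (p i) u = inner ℝ (p i) m + inner ℝ (p i) (u - m) := by
      rw [← inner_add_right]; congr 1; abel
    have e2 : inner ℝ (p i) (u - m) ≤ R * r :=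
      (hpin i _).trans (mul_le_mul_of_nonneg_left hur hR)
    have e3 : ‖u - z i‖ ≤ ‖m - z i‖ + r := by
      have : u - z i = (m - z i) + (u - m) := by abel
      rw [this]
      exact (norm_add_le _ _).trans (by linarith)
    have e4 : ‖m - z i‖ ≤ ‖m‖ + R := (norm_sub_le _ _).trans (by linarith [hz i])
    have e5 : ‖u - z i‖ ^ 2 ≤ ‖m - z i‖ ^ 2 + r * (r + 2 * ‖m‖ + 2 * R) := by
      have h0 := norm_nonneg (u - z i)
      have h0' := norm_nonneg (m - z i)
      nlinarith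
    have e6 : Φ (‖u - z i‖ ^ 2) ≤ Φ (‖m - z i‖ ^ 2) + r * (r + 2 * ‖m‖ + 2 * R) := by
      have hnn : 0 ≤ r * (r + 2 * ‖m‖ + 2 * R) := by positivity
      have := Φlip (‖m - z i‖ ^ 2) (‖m - z i‖ ^ 2 + r * (r + 2 * ‖m‖ + 2 * R)) (by linarith)
      have := Φmono _ _ e5
      linarith
    rw [e1]
    nlinarith
  -- uniform gap gives interior
  have hint : ∀ (m : V) (η : ℝ), 0 < η →
      (∀ i, inner ℝ (p i) m + Φ (‖m - z i‖ ^ 2) ≤ 1 - η) → L ∈ nhds m := by
    intro m η hη h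
    set K : ℝ := 1 + 2 * ‖m‖ + 3 * R with hK
    have hKpos : 0 < K := by positivity
    set r : ℝ := min 1 (η / K) with hr
    have hrpos : 0 < r := lt_min one_pos (by positivity)
    have hrK : r * K ≤ η := by
      have : r ≤ η / K := min_le_right _ _
      rwa [le_div_iff₀ hKpos] at this
    have hr1 : r ≤ 1 := min_le_left _ _
    refine Filter.mem_of_superset (Metric.closedBall_mem_nhds m hrpos) ?_
    intro u hu i
    rw [Metric.mem_closedBall, dist_eq_norm] at hu
    have e := hpert m u r hu i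
    have : r * (r + 2 * ‖m‖ + 3 * R) ≤ r * K := by
      apply mul_le_mul_of_nonneg_left _ hrpos.le
      rw [hK]; linarith
    linarith [h i]
  have h0int : L ∈ nhds (0 : V) := by
    apply hint 0 (1 / 2) (by norm_num)
    intro i
    rw [inner_zero_right, zero_sub, norm_neg]
    linarith [hhalf i]
  have hclosed : IsClosed L := by
    have hΦc : Continuous Φ := by
      have : LipschitzWith 1 Φ := by
        apply LipschitzWith.of_dist_le_mul
        intro a b
        rw [Real.dist_eq, Real.dist_eq, NNReal.coe_one, one_mul]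
        rcases le_total a b with h | h
        · have e1 := Φmono _ _ h
          have e2 := Φlip _ _ h
          rw [abs_sub_comm, abs_of_nonneg (by linarith), abs_sub_comm, abs_of_nonneg (by linarith)]
          linarith
        · have e1 := Φmono _ _ h
          have e2 := Φlip _ _ h
          rw [abs_of_nonneg (by linarith), abs_of_nonneg (by linarith)]
          linarith
      exact this.continuous
    have : L = ⋂ i, {x | inner ℝ (p i) x + Φ (‖x - z i‖ ^ 2) ≤ 1} := by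
      ext x; simp [hL]
    rw [this]
    apply isClosed_iInter
    intro i
    apply isClosed_le _ continuous_const
    apply Continuous.add
    · exact continuous_const.inner continuous_id
    · exact hΦc.comp ((continuous_id.sub continuous_const).norm.pow 2)
  have habs : Absorbent ℝ L := absorbent_nhds_zero h0int
  have hbdd : Bornology.IsVonNBounded ℝ L := by
    rw [NormedSpace.isVonNBounded_iff, isBounded_iff_forall_norm_le]
    set A : ℝ := 2 * R + R / c 0
    set B : ℝ := 1 + 1 / c 0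
    have hc00 := hc0 0
    have hA : 0 ≤ A := by positivity
    have hB : 0 ≤ B := by positivity
    refine ⟨A + B + 1, fun x hx => ?_⟩
    have hx0 := hx i0
    have e1 := Φlow (‖x - z i0‖ ^ 2)
    have e2 : ‖x‖ ^ 2 - 2 * R * ‖x‖ ≤ ‖x - z i0‖ ^ 2 := by
      rw [@norm_sub_sq_real]
      have : inner ℝ x (z i0) ≤ ‖x‖ * R :=
        (real_inner_le_norm _ _).trans (mul_le_mul_of_nonneg_left (hz i0) (norm_nonneg _))
      have := sq_nonneg ‖z i0‖
      nlinarith
    have e3 : -(R * ‖x‖) ≤ inner ℝ (p i0) x := by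
      have := hpin i0 (-x)
      rw [inner_neg_right, norm_neg] at this
      linarith
    have e4 : c 0 * (‖x‖ ^ 2 - 2 * R * ‖x‖ - 1) ≤ 1 + R * ‖x‖ := by
      have : c 0 * (‖x‖ ^ 2 - 2 * R * ‖x‖ - 1) ≤ c 0 * (‖x - z i0‖ ^ 2 - 1) :=
        mul_le_mul_of_nonneg_left (by linarith) hc00.le
      linarith
    have e5 : ‖x‖ ^ 2 ≤ A * ‖x‖ + B := by
      have : ‖x‖ ^ 2 - 2 * R * ‖x‖ - 1 ≤ (1 + R * ‖x‖) / c 0 := by
        rw [le_div_iff₀ hc00]; linarith
      have e6 : (1 + R * ‖x‖) / c 0 = 1 / c 0 + R / c 0 * ‖x‖ := by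
        field_simp
      rw [e6] at this
      simp only [A, B]
      linarith
    by_contra hcon
    push_neg at hcon
    nlinarith [norm_nonneg x]
  have hsymm : ∀ x ∈ L, -x ∈ L := by
    intro x hx i
    obtain ⟨j, hj1, hj2⟩ := hneg i
    have := hx j
    rw [hj1, hj2] at this
    have e1 : ‖-x - z i‖ = ‖x - -z i‖ := by
      rw [← norm_neg]; congr 1; abel
    rw [e1, inner_neg_right]
    rw [inner_neg_left] at this
    exact this
  have hTL : ∀ x, T x ∈ L ↔ x ∈ L := by
    intro x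
    constructor
    · intro hx i
      obtain ⟨j, hj1, hj2⟩ := hT i
      have := hx j
      rw [hj1, hj2, LinearIsometryEquiv.inner_map_map, ← map_sub, LinearIsometryEquiv.norm_map] at this
      exact this
    · intro hx i
      obtain ⟨j1, a1, b1⟩ := hT i
      obtain ⟨j2, a2, b2⟩ := hT j1
      obtain ⟨j3, a3, b3⟩ := hT j2
      obtain ⟨j4, a4, b4⟩ := hT j3
      have ez : T (z j4) = z i := by rw [a4, a3, a2, a1]; exact hT5 _
      have ep : T (p j4) = p i := by rw [b4, b3, b2, b1]; exact hT5 _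
      have := hx j4
      rw [← ez, ← ep, LinearIsometryEquiv.inner_map_map, ← map_sub, LinearIsometryEquiv.norm_map]
      exact this
  have hneg' : ∀ x, gauge L (-x) = gauge L x := gauge_neg hsymm
  refine ⟨gauge L, fun x y => gauge_add_le hconvL habs x y, ?_, ?_, ?_, ?_, ?_⟩
  · intro a x
    rcases le_total 0 a with ha | ha
    · rw [gauge_smul_of_nonneg ha, abs_of_nonneg ha, smul_eq_mul]
    · have : a • x = -((-a) • x) := by rw [neg_smul, neg_neg]
      rw [this, hneg', gauge_smul_of_nonneg (neg_nonneg.mpr ha), abs_of_nonpos ha, smul_eq_mul]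
  · intro x hx
    by_contra hne
    have := (gauge_pos habs hbdd).mpr hne
    linarith
  · intro x y hxy hx hy
    rw [gauge_lt_one_iff_mem_interior hconvL h0int]
    have hxL : x ∈ L := by
      have := (gauge_le_one_iff_mem_closure hconvL h0int).mp hx.le
      rwa [hclosed.closure_eq] at this
    have hyL : y ∈ L := by
      have := (gauge_le_one_iff_mem_closure hconvL h0int).mp hy.le
      rwa [hclosed.closure_eq] at this
    rw [mem_interior_iff_mem_nhds]
    have hd : 0 < ‖x - y‖ := norm_pos_iff.mpr (sub_ne_zero.mpr hxy)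
    apply hint _ (Φ (‖x - y‖ ^ 2 / 4)) (Φpos _ (by positivity))
    intro i
    have e1 : (1 / 2 : ℝ) • (x + y) - z i =
        (1 / 2 : ℝ) • (x - z i) + (1 - 1 / 2 : ℝ) • (y - z i) := by module
    have e2 := hsq (x - z i) (y - z i) (1 / 2) (by norm_num) (by norm_num)
    have e3 : x - z i - (y - z i) = x - y := by abel
    rw [← e1, e3] at e2
    have e4 := super_of_convex Φ0 Φconv (a := ‖(1 / 2 : ℝ) • (x + y) - z i‖ ^ 2)
      (b := ‖x - y‖ ^ 2 / 4) (by positivity) (by positivity)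
    have e5 : ‖(1 / 2 : ℝ) • (x + y) - z i‖ ^ 2 + ‖x - y‖ ^ 2 / 4 =
        1 / 2 * ‖x - z i‖ ^ 2 + (1 - 1 / 2) * ‖y - z i‖ ^ 2 := by
      rw [e2]; ring
    rw [e5] at e4
    have e6 := Φconv (‖x - z i‖ ^ 2) (‖y - z i‖ ^ 2) (1 / 2) (by norm_num) (by norm_num)
    have e7 : inner ℝ (p i) ((1 / 2 : ℝ) • (x + y)) =
        1 / 2 * (inner ℝ (p i) x + inner ℝ (p i) y) := by
      rw [real_inner_smul_right, inner_add_right]
    rw [e7]
    linarith [hxL i, hyL i]
  · intro i
    apply le_antisymm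
    · apply gauge_le_one_of_mem
      intro k
      linarith [hmain k i]
    · by_contra hcon
      push_neg at hcon
      obtain ⟨r, hr0, hr1, hr2⟩ := exists_lt_of_gauge_lt habs hcon
      obtain ⟨u, hu, hu2⟩ := hr2
      have e1 := hu i
      have e2 := Φnn (‖u - z i‖ ^ 2) (by positivity)
      have e3 := h1 i
      simp only at hu2
      rw [← hu2] at e3 
      rw [real_inner_smul_right] at e3
      nlinarith
  · intro x
    rw [gauge_def', gauge_def']
    congr 1
    ext r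
    simp only [mem_sep_iff, mem_setOf_eq]
    rw [← map_smul, hTL]

end Pool.Agent.H777R4.PartB
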